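import Pool.Agent.H948.SF.Base

/-!
# A block with mean number of offspring larger than one
-/

namespace Pool.Agent.H196.SF.Line

open MeasureTheory ProbabilityTheory Set Filter Pool.Agent.H948.SF
open scoped ENNReal NNReal Nat Topology

/-- Independence of two events which depend on disjoint sets of cells. -/
theorem indep2 (h2 : S_BLOCK) {V : Type} (lam : ℝ) {A B : Set (Env (Lab V))}
    (hA : MeasurableSet A) (hB : MeasurableSet B) (IA IB : Set (Lab V × ℤ))
    (dA : ∀ ω ω' : Env (Lab V), (∀ j ∈ IA, ω j = ω' j) → (ω ∈ A ↔ ω' ∈ A))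
    (dB : ∀ ω ω' : Env (Lab V), (∀ j ∈ IB, ω j = ω' j) → (ω ∈ B ↔ ω' ∈ B))
    (hd : Disjoint IA IB) : mu V lam (A ∩ B) = mu V lam A * mu V lam B := by
  have h := h2 (Lab V × ℤ) (fun i => contactRate lam i.1) Bool (fun _ => Prop)
    (fun b ω => if b = true then ω ∈ A else ω ∈ B) (fun b => if b = true then IA else IB)
    (by
      intro b
      cases b
      · simpa using hB
      · simpa using hA)
    (by
      intro b ω ω' hω
      cases b
      · simp only [Bool.false_eq_true, if_false] at hω ⊢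
        exact propext (dB ω ω' hω)
      · simp only [if_true] at hω ⊢
        exact propext (dA ω ω' hω))
    (by
      intro b b' hb
      cases b <;> cases b'
      · exact absurd rfl hb
      · simpa using hd.symm
      · simpa using hd
      · exact absurd rfl hb)
  have h' := h.indepFun (i := true) (j := false) (by decide)
  have h3 := h'.measure_inter_preimage_eq_mul {True} {True} (MeasurableSet.singleton _)
    (MeasurableSet.singleton _)
  have eA : (fun ω : Env (Lab V) => (if true = true then ω ∈ A else ω ∈ B)) ⁻¹' {True} = A := by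
    ext ω; simp
  have eB : (fun ω : Env (Lab V) => (if false = true then ω ∈ A else ω ∈ B)) ⁻¹' {True} = B := by
    ext ω; simp
  rw [eA, eB] at h3
  exact h3

variable {V : Type}

theorem meas_Con [Countable V] (h3 : S_MEAS) (G : SimpleGraph V) (x y : V) (k l : ℤ) :
    MeasurableSet {ω : Env (Lab V) | Con G ω x k y l} := h3 V G x y k l

/-- Concatenation of paths in consecutive windows. -/
theorem mul_le [Countable V] (h2 : S_BLOCK) (h3 : S_MEAS) (G : SimpleGraph V) (lam : ℝ) (x y z : V)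
    (k l m : ℤ) :
    mu V lam {ω | Con G ω x k y l} * mu V lam {ω | Con G ω y l z m} ≤
      mu V lam {ω | Con G ω x k z m} := by
  rw [← indep2 h2 lam (meas_Con h3 G x y k l) (meas_Con h3 G y z l m) (Use G x k l) (Use G y l m)
    (fun ω ω' h => Con_congr h) (fun ω ω' h => Con_congr h)]
  · exact measure_mono fun ω hω => Pool.Agent.H948.SF.Con.trans hω.1 hω.2
  · rw [Set.disjoint_left]
    rintro i ⟨_, h1, _⟩ ⟨h4, _, _⟩
    omega

theorem mono_graph {G G' : SimpleGraph V} (h : G ≤ G') (lam : ℝ) (x y : V) (k l : ℤ) :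
    mu V lam {ω | Con G ω x k y l} ≤ mu V lam {ω | Con G' ω x k y l} :=
  measure_mono fun _ hω => Pool.Agent.H948.SF.Con.mono hω h

section Tree

variable {e : ℕ}

theorem shift (h1 : S_RIX) (h3 : S_MEAS) (lam : ℝ) (S : Set (W e)) (c : W e) (k0 : ℤ)
    (u v : W e) (k l : ℤ) :
    mu (W e) lam {ω | Con (Rs (TW e) ((· ++ c) '' S)) ω (u ++ c) (k + k0) (v ++ c) (l + k0)} =
      mu (W e) lam {ω | Con (Rs (TW e) S) ω u k v l} := by
  have hp := h1.2 (W e) (W e) lam (fun u => u ++ c) k0 (app_injective c)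
  rw [← hp.measure_preimage (meas_Con h3 (Rs (TW e) S) u v k l).nullMeasurableSet]
  congr 1
  ext ω
  exact (Con_app S c k0 ω u v k l).symm

theorem hand (h4 : S_HAND) {lam : ℝ} (hl : 0 < lam) {M : ℕ} (x y : W e) (hxy : (TW e).Adj x y)
    (hx : x ∈ Bset e M) (hy : y ∈ Bset e M) (k : ℤ) :
    ENNReal.ofReal (hc lam) ≤ mu (W e) lam {ω | Con (Rs (TW e) (Bset e M)) ω x k y (k + 1)} := by
  refine ((h4 (W e) (TW e) lam x y k hl).1 hxy).trans (mono_graph (Rs_mono _ ?_) lam x y k (k + 1))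
  rintro z (rfl | rfl)
  · exact hx
  · exact hy

theorem mem_B {M : ℕ} (w : W e) (h : w.length + 1 ≤ M) : w ++ [0] ∈ Bset e M :=
  Or.inr ⟨⟨w, rfl⟩, by simpa using h⟩

/-- the mean number of the chains with `j` pieces -/
noncomputable def Q (e : ℕ) (lam : ℝ) (M n K : ℕ) (j : ℕ) : ℝ≥0∞ :=
  ∑' w : {w : W e // w.length = j * n},
    mu (W e) lam {ω | Con (Rs (TW e) (Bset e M)) ω (w.1 ++ [0]) (-1 - (j : ℤ) * K) [] 0}

theorem Q_zero (h4 : S_HAND) {lam : ℝ} (hl : 0 < lam) {M n K : ℕ} (hM : 1 ≤ M) :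
    ENNReal.ofReal (hc lam) ≤ Q e lam M n K 0 := by
  unfold Q
  refine le_trans ?_ (ENNReal.le_tsum (⟨[], by simp⟩ : {w : W e // w.length = 0 * n}))
  have h := hand (e := e) (M := M) h4 hl [0] [] (Or.inl ⟨0, rfl⟩) (mem_B [] (by simpa using hM))
    (Or.inl rfl) (-1)
  simpa using h

theorem Q_succ (h1 : S_RIX) (h2 : S_BLOCK) (h3 : S_MEAS) {lam : ℝ} {M n K R j : ℕ}
    (hM : R + (j * n + 1) ≤ M) :
    (∑' w : {w : W e // w.length = n}, mu (W e) lam {ω | Con (TR e R) ω w (-(K : ℤ)) [] 0}) *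
      Q e lam M n K j ≤ Q e lam M n K (j + 1) := by
  unfold Q
  rw [← ENNReal.tsum_mul_right]
  simp_rw [← ENNReal.tsum_mul_left]
  rw [← ENNReal.tsum_prod]
  let g : {w : W e // w.length = n} × {w : W e // w.length = j * n} →
      {w : W e // w.length = (j + 1) * n} := fun p => ⟨p.1.1 ++ p.2.1, by
        rw [List.length_append, p.1.2, p.2.2]; ring⟩
  have hg : Function.Injective g := by
    intro p p' hpp
    have h5 : p.1.1 ++ p.2.1 = p'.1.1 ++ p'.2.1 := congrArg Subtype.val hpp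
    have h6 := List.append_inj h5 (by rw [p.1.2, p'.1.2])
    exact Prod.ext (Subtype.ext h6.1) (Subtype.ext h6.2)
  refine le_trans ?_ (ENNReal.tsum_comp_le_tsum_of_injective hg _)
  refine ENNReal.tsum_le_tsum fun p => ?_
  obtain ⟨⟨s, hs⟩, ⟨w, hw⟩⟩ := p
  simp only [g]
  rw [List.append_assoc]
  refine le_trans ?_ (mul_le h2 h3 _ lam (s ++ (w ++ [0])) (w ++ [0]) []
    (-1 - ((j + 1 : ℕ) : ℤ) * K) (-1 - (j : ℤ) * K) 0)
  refine mul_le_mul' ?_ le_rfl
  have h7 := shift h1 h3 lam {u : W e | u.length ≤ R} (w ++ [0]) (-1 - (j : ℤ) * K) s []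
    (-(K : ℤ)) 0
  unfold TR
  rw [← h7]
  have e1 : -(K : ℤ) + (-1 - (j : ℤ) * K) = -1 - ((j + 1 : ℕ) : ℤ) * K := by push_cast; ring
  rw [e1, zero_add, List.nil_append]
  refine mono_graph (Rs_mono _ ?_) lam _ _ _ _
  rintro _ ⟨u, hu, rfl⟩
  have hu' : u.length ≤ R := hu
  show u ++ (w ++ [0]) ∈ Bset e M
  rw [← List.append_assoc]
  refine mem_B _ ?_
  rw [List.length_append, hw]
  omega

theorem Q_pow (h1 : S_RIX) (h2 : S_BLOCK) (h3 : S_MEAS) (h4 : S_HAND) {lam : ℝ} (hl : 0 < lam)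
    {M n K R : ℕ} : ∀ j : ℕ, R + (j * n + 1) ≤ M →
    (∑' w : {w : W e // w.length = n}, mu (W e) lam {ω | Con (TR e R) ω w (-(K : ℤ)) [] 0}) ^ j *
      ENNReal.ofReal (hc lam) ≤ Q e lam M n K j
  | 0, hM => by
    rw [pow_zero, one_mul]
    exact Q_zero h4 hl (by omega)
  | j + 1, hM => by
    have hM' : R + (j * n + 1) ≤ M := by
      have : j * n ≤ (j + 1) * n := Nat.mul_le_mul_right n (Nat.le_succ j)
      omega
    refine le_trans ?_ (Q_succ h1 h2 h3 hM')
    rw [pow_succ', mul_assoc]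
    exact mul_le_mul' le_rfl (Q_pow h1 h2 h3 h4 hl j hM')

theorem down (h2 : S_BLOCK) (h3 : S_MEAS) (h4 : S_HAND) {lam : ℝ} (hl : 0 < lam) {M : ℕ}
    (w : W e) (T : ℤ) : ∀ r : ℕ, w.length + r + 1 ≤ M →
    ENNReal.ofReal (hc lam) ^ r *
        mu (W e) lam {ω | Con (Rs (TW e) (Bset e M)) ω (w ++ [0]) T [] 0} ≤
      mu (W e) lam {ω | Con (Rs (TW e) (Bset e M)) ω ((List.replicate r 0 ++ w) ++ [0]) (T - r) [] 0}
  | 0, _ => by simp
  | r + 1, hM => by
    have ih := down (M := M) h2 h3 h4 hl w T r (by omega)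
    refine le_trans ?_ (mul_le h2 h3 _ lam ((List.replicate (r + 1) 0 ++ w) ++ [0])
      ((List.replicate r 0 ++ w) ++ [0]) [] (T - ((r + 1 : ℕ) : ℤ)) (T - r) 0)
    rw [pow_succ', mul_assoc]
    refine mul_le_mul' ?_ ih
    have h5 := hand (e := e) (M := M) h4 hl ((List.replicate (r + 1) 0 ++ w) ++ [0])
      ((List.replicate r 0 ++ w) ++ [0]) (Or.inl ⟨0, by simp [List.replicate_succ]⟩)
      (mem_B (List.replicate (r + 1) 0 ++ w) (by simp; omega))
      (mem_B (List.replicate r 0 ++ w) (by simp; omega)) (T - ((r + 1 : ℕ) : ℤ))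
    have e1 : T - ((r + 1 : ℕ) : ℤ) + 1 = T - r := by push_cast; ring
    rwa [e1] at h5

end Tree

theorem hc_pos {lam : ℝ} (hl : 0 < lam) : 0 < hc lam := by
  unfold hc
  have : Real.exp (-lam) < 1 := by rw [Real.exp_lt_one_iff]; linarith
  have h2 := Real.exp_pos (-2)
  exact mul_pos h2 (by linarith)

theorem s_line (h1 : S_RIX) (h2 : S_BLOCK) (h3 : S_MEAS) (h4 : S_HAND) : S_LINE := by
  intro e lam hl hex
  obtain ⟨n, K, R, hn, hq⟩ := hex
  set q := ∑' w : {w : W e // w.length = n},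
    mu (W e) lam {ω | Con (TR e R) ω w (-(K : ℤ)) [] 0} with hqd
  have hh : ENNReal.ofReal (hc lam) ≠ 0 := by
    simpa using hc_pos hl
  have hh' : ENNReal.ofReal (hc lam) ≠ ∞ := ENNReal.ofReal_ne_top
  have hlim : Tendsto (fun J : ℕ => q ^ J) atTop (𝓝 ∞) :=
    ENNReal.tendsto_pow_atTop_nhds_top_iff.2 hq
  have hev : ∀ᶠ J : ℕ in atTop, (ENNReal.ofReal (hc lam) ^ (R + 1))⁻¹ < q ^ J := by
    refine hlim.eventually (lt_mem_nhds ?_)
    rw [lt_top_iff_ne_top, ENNReal.inv_ne_top]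
    exact pow_ne_zero _ hh
  obtain ⟨J, hJ, hJ1⟩ := (hev.and (eventually_ge_atTop 1)).exists
  refine ⟨1 + J * n + R, 1 + J * K + R, ?_, by omega, ?_⟩
  · have : 1 * 1 ≤ J * n := Nat.mul_le_mul hJ1 hn
    omega
  · have hmain : 1 < ENNReal.ofReal (hc lam) ^ R * (q ^ J * ENNReal.ofReal (hc lam)) := by
      have e1 : ENNReal.ofReal (hc lam) ^ R * (q ^ J * ENNReal.ofReal (hc lam)) =
          q ^ J * ENNReal.ofReal (hc lam) ^ (R + 1) := by ring
      rw [e1]
      have h5 : (ENNReal.ofReal (hc lam) ^ (R + 1)) ≠ 0 := pow_ne_zero _ hh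
      have h6 : (ENNReal.ofReal (hc lam) ^ (R + 1)) ≠ ∞ := ENNReal.pow_ne_top hh'
      calc (1 : ℝ≥0∞) = (ENNReal.ofReal (hc lam) ^ (R + 1))⁻¹ * ENNReal.ofReal (hc lam) ^ (R + 1) :=
            (ENNReal.inv_mul_cancel h5 h6).symm
        _ < q ^ J * ENNReal.ofReal (hc lam) ^ (R + 1) := by
            rw [ENNReal.mul_lt_mul_iff_left h5 h6]
            exact hJ
    refine hmain.trans_le ?_
    have h7 := Q_pow (e := e) (M := 1 + J * n + R) (n := n) (K := K) (R := R) h1 h2 h3 h4 hl J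
      (by omega)
    refine (mul_le_mul_right h7 _).trans ?_
    unfold Q
    rw [← ENNReal.tsum_mul_left]
    let g : {w : W e // w.length = J * n} → Lset e (1 + J * n + R) := fun w =>
      ⟨(List.replicate R 0 ++ w.1) ++ [0], ⟨⟨_, rfl⟩, by simp [w.2]; omega⟩⟩
    have hg : Function.Injective g := by
      intro w w' hww
      have h5 : (List.replicate R 0 ++ w.1) ++ [0] = (List.replicate R 0 ++ w'.1) ++ [0] :=
        congrArg Subtype.val hww
      exact Subtype.ext (List.append_cancel_left (List.append_cancel_right h5))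
    refine le_trans ?_ (ENNReal.tsum_comp_le_tsum_of_injective hg _)
    refine ENNReal.tsum_le_tsum fun w => ?_
    have h8 := down (e := e) (M := 1 + J * n + R) h2 h3 h4 hl w.1 (-1 - (J : ℤ) * K) R
      (by rw [w.2]; omega)
    have e2 : -1 - (J : ℤ) * K - R = -((1 + J * K + R : ℕ) : ℤ) := by push_cast; ring
    rw [e2] at h8
    exact h8

end Pool.Agent.H196.SF.Line

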